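import Pool.Agent.Lib.H39N.Pole

/-!
# MP_b0512f_an: normal automorphic functions for discontinuous groups of the unit disc

The literal form of Q1 (unit disc, groups of Moebius transformations).
-/

set_option autoImplicit false

namespace Pool.Agent.Results.MP_b0512f_an.DiscGroups

/-- `γ` is a Moebius transformation mapping the unit disc onto itself: `γ z = (a z + b)/(c z + d)` on the
disc, where `a d - b c ≠ 0`. (That `γ` maps the disc onto itself is part of its type.) -/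
def IsMoebius (γ : Equiv.Perm (Metric.ball (0 : ℂ) 1)) : Prop :=
  ∃ a b c d : ℂ, a * d - b * c ≠ 0 ∧ ∀ z : Metric.ball (0 : ℂ) 1,
    c * (z : ℂ) + d ≠ 0 ∧ (γ z : ℂ) = (a * z + b) / (c * z + d)

/-- `Γ` acts properly discontinuously on the unit disc. -/
def ProperlyDiscontinuous (Γ : Subgroup (Equiv.Perm (Metric.ball (0 : ℂ) 1))) : Prop :=
  ∀ K : Set (Metric.ball (0 : ℂ) 1), IsCompact K →
    {γ : Equiv.Perm (Metric.ball (0 : ℂ) 1) | γ ∈ Γ ∧ ∃ z ∈ K, γ z ∈ K}.Finite

open Classical in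
/-- The spherical derivative `|f'| / (1 + |f| ^ 2)` of a meromorphic function `f` (in normal form); at a
pole, where `1 / f` is analytic with the value `0`, it is the spherical derivative of `1 / f`, that is, the
continuous extension. -/
noncomputable def sphericalDeriv (f : ℂ → ℂ) (z : ℂ) : ℝ :=
  if AnalyticAt ℂ f z then ‖deriv f z‖ / (1 + ‖f z‖ ^ 2)
  else ‖deriv f⁻¹ z‖ / (1 + ‖f⁻¹ z‖ ^ 2)

/-- Every discontinuous group of Moebius transformations of the unit disc has a non-constant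
automorphic function which is normal. -/
theorem result (Γ : Subgroup (Equiv.Perm (Metric.ball (0 : ℂ) 1)))
    (hM : ∀ γ ∈ Γ, IsMoebius γ) (hd : ProperlyDiscontinuous Γ) :
    ∃ f : ℂ → ℂ, MeromorphicNFOn f (Metric.ball (0 : ℂ) 1) ∧
      (∃ z ∈ Metric.ball (0 : ℂ) 1, ∃ w ∈ Metric.ball (0 : ℂ) 1,
        AnalyticAt ℂ f z ∧ AnalyticAt ℂ f w ∧ f z ≠ f w) ∧
      (∀ γ ∈ Γ, ∀ z : Metric.ball (0 : ℂ) 1,
        (AnalyticAt ℂ f (γ z) ↔ AnalyticAt ℂ f z) ∧ f (γ z) = f z) ∧
      ∃ M : ℝ, ∀ z ∈ Metric.ball (0 : ℂ) 1, (1 - ‖z‖ ^ 2) * sphericalDeriv f z ≤ M := by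
  obtain ⟨f, hf, hnc, hinv, M, hb⟩ := H39N.disc_version Γ hM hd
  refine ⟨f, hf, hnc, hinv, M, fun z hz => ?_⟩
  unfold sphericalDeriv
  split_ifs with h
  · exact hb z hz h
  · exact (H39N.pole_bound Metric.isOpen_ball hf hb hz h).2

end Pool.Agent.Results.MP_b0512f_an.DiscGroups
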